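import Mathlib
import Pool.Agent.Work.MP_332575_al.Main

set_option autoImplicit false

namespace Pool.Agent.Results.MP_332575_al.FPVRCNotLarge

/-- There is a finitely presented group in which every cyclic subgroup is a retract of a
finite index subgroup, which has no abelian subgroup of finite index, no finite index subgroup of
which maps onto the free group of rank two, and whose finite index subgroups map onto free abelian
groups of arbitrarily large rank. -/
theorem result :
    ∃ (G : Type) (_ : Group G),
      (∃ (n : ℕ) (R : Finset (FreeGroup (Fin n))),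
        Nonempty (G ≃* PresentedGroup (R : Set (FreeGroup (Fin n))))) ∧
      (∀ g : G, ∃ K : Subgroup G, K.index ≠ 0 ∧ g ∈ K ∧
        ∃ ρ : K →* G, (∀ k : K, ρ k ∈ Subgroup.zpowers g) ∧
          ∀ k : K, (k : G) = g → ρ k = g) ∧
      ¬ (∃ H : Subgroup G, H.index ≠ 0 ∧ ∀ a ∈ H, ∀ b ∈ H, a * b = b * a) ∧
      ¬ (∃ H : Subgroup G, H.index ≠ 0 ∧
          ∃ φ : H →* FreeGroup (Fin 2), Function.Surjective φ) ∧
      (∀ n : ℕ, ∃ H : Subgroup G, H.index ≠ 0 ∧
        ∃ φ : H →* Multiplicative (Fin n → ℤ), Function.Surjective φ) :=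
  VRC.main_VRC

end Pool.Agent.Results.MP_332575_al.FPVRCNotLarge
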